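import Mathlib
import Pool.Agent.R15.K3.Fin

set_option autoImplicit false

/-!
# The Mader number of the bidirected triangle is at most five

Every finite loopless digraph that contains no subdivision of the bidirected triangle can be
coloured with four colours without monochromatic directed cycle. So a digraph of dichromatic number
at least `5` contains a subdivision of the bidirected triangle: `4 ≤ mader ≤ 5` (before: `≤ 9`).

Proof. The main lemma (`Pool.Agent.R15.K3.main`): a strong digraph with all out-degrees at least two
and a vertex `y` contain a subdivision of the bidirected triangle minus the arc from `w` to `u`, and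
a path from `w` to `y` disjoint from it otherwise. In a digraph that is minimal not 4-colourable
take the layers of a breadth-first search: some layer contains a minimal not 2-colourable
set `H`, which is strong and has all out-degrees at least two. A path leaves `H` at some vertex `y`
and comes back to the root, and from the root there is a path outside `H` to each vertex of `H`.
-/

namespace Pool.Agent.Results.MP_e72356_co.MaderTriangleAtMostFive

open Pool.Agent.R15.K3 Relation

/-- Every finite loopless digraph that contains no subdivision of the bidirected triangle has a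
4-colouring of its vertices with no monochromatic directed cycle. -/
theorem result :
    ∀ (V : Type) [Fintype V] (D : Digraph V),
      (∀ v : V, ¬ D.Adj v v) →
      ¬ (∃ (a b c : V) (l₁ l₂ l₃ l₄ l₅ l₆ : List V),
          ([a, b, c] ++ l₁ ++ l₂ ++ l₃ ++ l₄ ++ l₅ ++ l₆).Nodup ∧
          (∀ p ∈ (a :: l₁ ++ [b]).zip (l₁ ++ [b]), D.Adj p.1 p.2) ∧
          (∀ p ∈ (b :: l₂ ++ [a]).zip (l₂ ++ [a]), D.Adj p.1 p.2) ∧
          (∀ p ∈ (b :: l₃ ++ [c]).zip (l₃ ++ [c]), D.Adj p.1 p.2) ∧
          (∀ p ∈ (c :: l₄ ++ [b]).zip (l₄ ++ [b]), D.Adj p.1 p.2) ∧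
          (∀ p ∈ (a :: l₅ ++ [c]).zip (l₅ ++ [c]), D.Adj p.1 p.2) ∧
          (∀ p ∈ (c :: l₆ ++ [a]).zip (l₆ ++ [a]), D.Adj p.1 p.2)) →
      ∃ f : V → Fin 4,
        ∀ (v : V) (l : List V),
          (∀ p ∈ (v :: l ++ [v]).zip (l ++ [v]), D.Adj p.1 p.2) →
          ∃ w ∈ l, f w ≠ f v := by
  intro V _ D hl hno
  obtain ⟨g, g1, g2⟩ := four (D := D.Adj) hl hno Finset.univ
  refine ⟨fun v => ⟨g v, g1 v⟩, ?_⟩
  intro v l h
  by_contra hcon
  push Not at hcon
  have hc : ∀ w ∈ l, g w = g v := fun w hw => congrArg Fin.val (hcon w hw)
  apply g2 v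
  have key : ∀ (l : List V) (a : V), g a = g v → (∀ w ∈ l, g w = g v) →
      (∀ p ∈ (a :: l ++ [v]).zip (l ++ [v]), D.Adj p.1 p.2) →
      TransGen (Mo D.Adj Finset.univ g) a v := by
    intro l
    induction l with
    | nil =>
      intro a ha _ h
      have := h (a, v) (by simp)
      exact TransGen.single ⟨this, Finset.mem_univ _, Finset.mem_univ _, ha⟩
    | cons b l ih =>
      intro a ha hl h
      rw [List.cons_append, List.cons_append, List.zip_cons_cons] at h
      have h1 := h (a, b) List.mem_cons_self
      have hb := hl b List.mem_cons_self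
      have h2 := ih b hb (fun w hw => hl w (List.mem_cons_of_mem _ hw))
        (fun p hp => h p (List.mem_cons_of_mem _ hp))
      exact TransGen.head ⟨h1, Finset.mem_univ _, Finset.mem_univ _, ha.trans hb.symm⟩ h2
  exact key l v rfl hc h

end Pool.Agent.Results.MP_e72356_co.MaderTriangleAtMostFive
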